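import Pool.Agent.Helper51.AJ.St
import Pool.Agent.Helper51.AJ.Basic

/-!
# Project AJ (MP_d63854_co), module ASA: a dominating vertex
-/

set_option autoImplicit false

namespace Pool.Agent.Helper44.AJ

open Pool.Agent.Helper51.AJ

private theorem asa_join (h1 : StTrn) {V W : Type} {G : SimpleGraph V} {a : V} (ha : ∀ b, b ≠ a → G.Adj a b)
    {H : SimpleGraph W} (h : IsMinor H (G.induce {a}ᶜ)) : IsMinor (jn (⊤ : SimpleGraph (Fin 1)) H) G := by
  obtain ⟨φ, k0, k1, k2, k3⟩ := (h1.2 W V H G {a}ᶜ).1 h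
  have hne : ∀ w, ∃ y ∈ φ w, G.Adj a y := by
    intro w
    obtain ⟨y, hy⟩ := con_nonempty (k1 w)
    exact ⟨y, hy, ha y (k0 w hy)⟩
  refine ⟨Sum.elim (fun _ => {a}) φ, ?_, ?_, ?_⟩
  · rintro (i | w)
    · exact con_singleton G a
    · exact k1 w
  · rintro (i | w) (j | w') hne'
    · exact absurd (by rw [Subsingleton.elim i j]) hne'
    · show Disjoint {a} (φ w')
      rw [Set.disjoint_singleton_left]
      exact fun h => k0 w' h rfl
    · show Disjoint (φ w) {a}
      rw [Set.disjoint_singleton_right]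
      exact fun h => k0 w h rfl
    · exact k2 w w' fun h => hne' (by rw [h])
  · rintro (i | w) (j | w') hadj
    · exact absurd (Subsingleton.elim i j) (show i ≠ j from hadj)
    · obtain ⟨y, hy, hay⟩ := hne w'
      exact ⟨a, rfl, y, hy, hay⟩
    · obtain ⟨y, hy, hay⟩ := hne w
      exact ⟨y, hy, a, rfl, hay.symm⟩
    · exact k3 w w' hadj

private theorem asa_top : IsMinor E1 (jn (⊤ : SimpleGraph (Fin 1)) (⊤ : SimpleGraph (Fin 5))) := by
  have key : ∀ x y : Fin 1 ⊕ Fin 5, x ≠ y → (jn (⊤ : SimpleGraph (Fin 1)) (⊤ : SimpleGraph (Fin 5))).Adj x y := by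
    rintro (i | w) (j | w') h
    · exact absurd (by rw [Subsingleton.elim i j]) h
    · trivial
    · trivial
    · exact fun he => h (by rw [he])
  refine isMinor_of_hom (fun i : Fin 6 => (finSumFinEquiv.symm (i : Fin (1 + 5)) : Fin 1 ⊕ Fin 5))
    (fun x y h => finSumFinEquiv.symm.injective h) ?_
  intro x y hxy
  exact key _ _ fun h => (show x ≠ y from hxy) (finSumFinEquiv.symm.injective h)

/-- ASA: a dominating vertex. -/
theorem hASA (h1 : StTrn) (_h2 : StJnm) (h3 : StFna) : StAsa := by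
  intro V _ G a hG ha
  have hnp : ¬ Planar (G.induce {a}ᶜ) := fun h => hG.1 (Or.inr ⟨a, h⟩)
  unfold Planar at hnp
  rw [not_and_or, not_not, not_not] at hnp
  rcases hnp with h | h
  · left
    by_contra hcon
    have hm : IsMinor E1 G := h1.1 _ _ _ _ _ _ asa_top (asa_join h1 ha h)
    exact h3.2.1.1 (hG.2 _ E1 hm hcon)
  · right
    by_contra hcon
    have hm : IsMinor E2 G := asa_join h1 ha h
    exact h3.2.1.2.1 (hG.2 _ E2 hm hcon)

end Pool.Agent.Helper44.AJ
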