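import Pool.Agent.Helper51.AJ.St
import Pool.Agent.Helper51.AJ.Basic

/-!
# Project AJ (MP_d63854_co), module ATT: attachments and degrees in the normal form
-/

set_option autoImplicit false

namespace Pool.Agent.Helper44.AJ

open Pool.Agent.Helper51.AJ

private theorem att_uniq (hC : StCon) {V : Type} [Finite V] {B : SimpleGraph V} {u v : V} {W : Fin 3 → Set V}
    (h : NF B u v W) (i : Fin 3) {x x' : V} (hx : x ∈ W i) (hx' : x' ∈ W i) (ax : B.Adj u x) (ax' : B.Adj u x') :
    x = x' := by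
  by_contra hne
  obtain ⟨a, ha, y, hy, hay⟩ := h.av i
  have ha' : a = v := ha
  subst ha'
  have hS : W i ≠ {y} := by
    intro hS
    rw [hS] at hx hx'
    exact hne ((hx : x = y).trans (hx' : x' = y).symm)
  obtain ⟨t, ht, hty, hcon⟩ := (hC V B (W i) (h.con i)).2.1 y hy hS
  have hu : Tch B {u} (W i \ {t}) := by
    by_cases hxt : x = t
    · refine ⟨u, rfl, x', ⟨hx', ?_⟩, ax'⟩
      rintro (h1 : x' = t)
      exact hne (hxt.trans h1.symm)
    · exact ⟨u, rfl, x, ⟨hx, hxt⟩, ax⟩
  have hv : Tch B {a} (W i \ {t}) := ⟨a, rfl, y, ⟨hy, fun h1 => hty (h1 : y = t).symm⟩, hay⟩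
  have h1 := h.min i (W i \ {t}) Set.sdiff_subset hcon hu hv
  have h2 : t ∈ W i \ {t} := by rw [h1]; exact ht
  exact h2.2 rfl

/-- ATT: attachments and degrees in the normal form. -/
theorem hATT (h1 : StCon) (h2 : StPth) : StAtt := by
  intro V _ B u v W h i
  obtain ⟨a, ha, x, hx, hax⟩ := h.au i
  obtain ⟨b, hb, y, hy, hby⟩ := h.av i
  have ha' : a = u := ha
  have hb' : b = v := hb
  subst ha'
  subst hb'
  have hu : ∀ z ∈ W i, B.Adj a z ↔ z = x := by
    intro z hz
    constructor
    · intro hz'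
      exact att_uniq h1 h i hz hx hz' hax
    · rintro rfl
      exact hax
  have hv : ∀ z ∈ W i, B.Adj b z ↔ z = y := by
    intro z hz
    constructor
    · intro hz'
      exact att_uniq h1 h.swap i hz hy hz' hby
    · rintro rfl
      exact hby
  have hxy : x = y → W i = {x} := by
    rintro rfl
    exact (h.min i {x} (Set.singleton_subset_iff.2 hx) (con_singleton B x) ⟨a, rfl, x, rfl, hax⟩
      ⟨b, rfl, x, rfl, hby⟩).symm
  refine ⟨x, hx, y, hy, hu, hv, hxy, ?_⟩
  have hP := h2 V B (W i) x y (h.con i) hx hy fun T hT hTc hxT hyT =>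
    h.min i T hT hTc ⟨a, rfl, x, hxT, hax⟩ ⟨b, rfl, y, hyT, hby⟩
  intro z hz
  obtain ⟨p1, p2⟩ := hP z hz
  have ua : B.Adj z a → z = x := fun hza => (hu z hz).1 hza.symm
  have vb : B.Adj z b → z = y := fun hzb => (hv z hz).1 hzb.symm
  by_cases hzx : z = x
  · by_cases hzy : z = y
    · have hW : W i = {x} := hxy (hzx.symm.trans hzy)
      have hsub : {t | B.Adj z t ∧ (t ∈ W i ∨ t = a ∨ t = b)} ⊆ insert a {b} := by
        rintro t ⟨ht, ht' | ht' | ht'⟩
        · rw [hW] at ht'
          have : t = z := (ht' : t = x).trans hzx.symm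
          exact absurd ht (by rw [this]; exact B.irrefl)
        · exact Or.inl ht'
        · exact Or.inr ht'
      refine (Set.ncard_le_ncard hsub (Set.toFinite _)).trans ((Set.ncard_insert_le _ _).trans ?_)
      rw [Set.ncard_singleton]
    · have hsub : {t | B.Adj z t ∧ (t ∈ W i ∨ t = a ∨ t = b)} ⊆ insert a {t | t ∈ W i ∧ B.Adj z t} := by
        rintro t ⟨ht, ht' | ht' | ht'⟩
        · exact Or.inr ⟨ht', ht⟩
        · exact Or.inl ht'
        · rw [ht'] at ht
          exact absurd (vb ht) hzy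
      refine (Set.ncard_le_ncard hsub (Set.toFinite _)).trans ((Set.ncard_insert_le _ _).trans ?_)
      have := p2 (Or.inl hzx)
      omega
  · by_cases hzy : z = y
    · have hsub : {t | B.Adj z t ∧ (t ∈ W i ∨ t = a ∨ t = b)} ⊆ insert b {t | t ∈ W i ∧ B.Adj z t} := by
        rintro t ⟨ht, ht' | ht' | ht'⟩
        · exact Or.inr ⟨ht', ht⟩
        · rw [ht'] at ht
          exact absurd (ua ht) hzx
        · exact Or.inl ht'
      refine (Set.ncard_le_ncard hsub (Set.toFinite _)).trans ((Set.ncard_insert_le _ _).trans ?_)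
      have := p2 (Or.inr hzy)
      omega
    · have hsub : {t | B.Adj z t ∧ (t ∈ W i ∨ t = a ∨ t = b)} ⊆ {t | t ∈ W i ∧ B.Adj z t} := by
        rintro t ⟨ht, ht' | ht' | ht'⟩
        · exact ⟨ht', ht⟩
        · rw [ht'] at ht
          exact absurd (ua ht) hzx
        · rw [ht'] at ht
          exact absurd (vb ht) hzy
      exact (Set.ncard_le_ncard hsub (Set.toFinite _)).trans p1

end Pool.Agent.Helper44.AJ
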