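import Pool.Agent.Helper51.AJ.St
import Pool.Agent.Helper51.AJ.Basic

/-!
# Project AJ (MP_d63854_co), module TRN: transitivity of the minor relation, minors of induced subgraphs
-/

set_option autoImplicit false

namespace Pool.Agent.Helper44.AJ

open Pool.Agent.Helper51.AJ

private theorem con_iUnion {W V : Type} {F : SimpleGraph W} {G : SimpleGraph V} {ψ : W → Set V}
    (hc : ∀ w, Con G (ψ w)) (hadj : ∀ w w', F.Adj w w' → Tch G (ψ w) (ψ w')) {S : Set W} (hS : Con F S) :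
    Con G (⋃ w ∈ S, ψ w) := by
  obtain ⟨⟨w0, hw0⟩⟩ := hS.nonempty
  obtain ⟨u, hu⟩ := con_nonempty (hc w0)
  have hsub : ∀ w : S, ψ w.1 ⊆ ⋃ w ∈ S, ψ w := fun w => Set.subset_biUnion_of_mem w.2
  have hin : ∀ (w : S) (x y : V) (hx : x ∈ ψ w.1) (hy : y ∈ ψ w.1),
      (G.induce (⋃ w ∈ S, ψ w)).Reachable ⟨x, hsub w hx⟩ ⟨y, hsub w hy⟩ := by
    intro w x y hx hy
    exact ((hc w.1).preconnected ⟨x, hx⟩ ⟨y, hy⟩).map (SimpleGraph.induceHomOfLE G (hsub w)).toHom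
  have key : ∀ w : S, Relation.ReflTransGen (F.induce S).Adj ⟨w0, hw0⟩ w → ∀ (v : V) (hv : v ∈ ψ w.1),
      (G.induce (⋃ w ∈ S, ψ w)).Reachable ⟨u, hsub ⟨w0, hw0⟩ hu⟩ ⟨v, hsub w hv⟩ := by
    intro w hw
    induction hw with
    | refl => exact fun v hv => hin ⟨w0, hw0⟩ u v hu hv
    | @tail w1 w2 _ h12 ih =>
      intro v hv
      obtain ⟨x, hx, y, hy, hxy⟩ := hadj w1.1 w2.1 h12
      have h1 := ih x hx
      have h2 : (G.induce (⋃ w ∈ S, ψ w)).Adj ⟨x, hsub w1 hx⟩ ⟨y, hsub w2 hy⟩ := hxy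
      exact (h1.trans h2.reachable).trans (hin w2 y v hy hv)
  refine G.induce_connected_of_patches u (hsub ⟨w0, hw0⟩ hu) ?_
  intro v hv
  refine ⟨_, Set.Subset.rfl, hsub ⟨w0, hw0⟩ hu, hv, ?_⟩
  obtain ⟨w, hw, hvw⟩ := Set.mem_iUnion₂.1 hv
  exact key ⟨w, hw⟩ ((SimpleGraph.reachable_iff_reflTransGen _ _).1
    (hS.preconnected ⟨w0, hw0⟩ ⟨w, hw⟩)) v hvw

private theorem con_sub {V : Type} (G : SimpleGraph V) (s : Set V) (T : Set s) :
    Con (G.induce s) T ↔ Con G (Subtype.val '' T) := by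
  have e : (G.induce s).induce T ≃g G.induce (Subtype.val '' T) :=
    { toEquiv := Equiv.Set.image Subtype.val T Subtype.val_injective
      map_rel_iff' := Iff.rfl }
  exact e.connected_iff

/-- TRN: transitivity of the minor relation, minors of induced subgraphs. -/
theorem hTRN : StTrn := by
  refine ⟨?_, ?_⟩
  · rintro X W V H F G ⟨φ, h1, h2, h3⟩ ⟨ψ, k1, k2, k3⟩
    refine ⟨fun x => ⋃ w ∈ φ x, ψ w, fun x => con_iUnion k1 k3 (h1 x), ?_, ?_⟩
    · intro x x' hx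
      rw [Set.disjoint_left]
      intro z hz hz'
      obtain ⟨w, hw, hzw⟩ := Set.mem_iUnion₂.1 hz
      obtain ⟨w', hw', hzw'⟩ := Set.mem_iUnion₂.1 hz'
      have hne : w ≠ w' := by
        rintro rfl
        exact Set.disjoint_left.1 (h2 x x' hx) hw hw'
      exact Set.disjoint_left.1 (k2 w w' hne) hzw hzw'
    · intro x x' hx
      obtain ⟨w, hw, w', hw', hww⟩ := h3 x x' hx
      obtain ⟨a, ha, b, hb, hab⟩ := k3 w w' hww
      exact ⟨a, Set.mem_iUnion₂.2 ⟨w, hw, ha⟩, b, Set.mem_iUnion₂.2 ⟨w', hw', hb⟩, hab⟩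
  · intro W V H G s
    constructor
    · rintro ⟨φ, h1, h2, h3⟩
      refine ⟨fun w => Subtype.val '' φ w, ?_, ?_, ?_, ?_⟩
      · rintro w _ ⟨x, _, rfl⟩
        exact x.2
      · intro w
        exact (con_sub G s (φ w)).1 (h1 w)
      · intro w w' hw
        exact (Set.disjoint_image_iff Subtype.val_injective).2 (h2 w w' hw)
      · intro w w' hw
        obtain ⟨a, ha, b, hb, hab⟩ := h3 w w' hw
        exact ⟨a.1, ⟨a, ha, rfl⟩, b.1, ⟨b, hb, rfl⟩, hab⟩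
    · rintro ⟨φ, h0, h1, h2, h3⟩
      refine ⟨fun w => Subtype.val ⁻¹' φ w, ?_, ?_, ?_⟩
      · intro w
        refine (con_sub G s _).2 ?_
        rw [Set.image_preimage_eq_of_subset (by rw [Subtype.range_coe]; exact h0 w)]
        exact h1 w
      · intro w w' hw
        exact (h2 w w' hw).preimage _
      · intro w w' hw
        obtain ⟨a, ha, b, hb, hab⟩ := h3 w w' hw
        exact ⟨⟨a, h0 w ha⟩, ha, ⟨b, h0 w' hb⟩, hb, hab⟩

end Pool.Agent.Helper44.AJ
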